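import Pool.Agent.helper71.DSW.SpecC

set_option autoImplicit false

/-!
# Row MID: the middle switch
-/

namespace Pool.Agent.DSW

open Equiv Finset Function Pool.Agent.helper48.PP
open scoped ENNReal Classical

noncomputable section

open Filter Topology in
theorem MID_lim (L : ℕ) (θ : ℝ) :
    Tendsto (fun H : ℕ => lb L H θ) atTop
      (𝓝 ((1 - 4 * θ + 17 * θ ^ 2 - 763 * θ ^ 3) ^ (L * (L / 2)) * (1 - 2 * θ) ^ L *
        (1 - 0) ^ (2 * (L * L)) * (1 - θ ^ 2 * (1 + 0) ^ 2) ^ (L * L) *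
        ∏ R ∈ CN L, (1 - (144 * θ) ^ R.card))) := by
  unfold lb
  have h1 : Tendsto (fun H : ℕ => θ / (H : ℝ)) atTop (𝓝 0) :=
    tendsto_const_div_atTop_nhds_zero_nat θ
  have h2 : Tendsto (fun H : ℕ => 1 / (H : ℝ)) atTop (𝓝 0) :=
    tendsto_const_div_atTop_nhds_zero_nat 1
  exact ((tendsto_const_nhds.mul ((tendsto_const_nhds.sub h1).pow _)).mul
    ((tendsto_const_nhds.sub (tendsto_const_nhds.mul ((tendsto_const_nhds.add h2).pow 2))).pow
      _)).mul tendsto_const_nhds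

theorem MID (hLOW : LOW_stmt) (hKEX : KEX_stmt) (hCSM : CSM_stmt) (hUBA : UBA_stmt)
    (hGPA : GPA_stmt) (hPVL : PVL_stmt) (hNU1 : NU1_stmt) (hNU2 : NU2_stmt) : MID_stmt := by
  obtain ⟨hz1, hz2, he0, he1, -⟩ := hNU1
  obtain ⟨L₀, hL₀⟩ := hNU2
  refine ⟨L₀, fun L hL => ?_⟩
  by_contra hcon
  push Not at hcon
  have hnum := hL₀ L hL
  have hth0 : 0 < th := by unfold th; norm_num
  have hth1 : th ≤ 1 / 1000 := by unfold th; norm_num
  set A : ℝ := (1 / zz) ^ (L * L - 1) * (1 / ee) ^ (2 * L) with hA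
  have hA0 : 0 ≤ A := by
    rw [hA]
    have : 0 < zz := by linarith
    positivity
  have hreal : ∀ H : ℕ, 1 ≤ H → th ^ (L * L) * lb L H th ≤ A + 6 * (L : ℝ) ^ 3 * th ^ 2 / H := by
    intro H hH
    have hHR : (1 : ℝ) ≤ H := by exact_mod_cast hH
    have hH2 : (0 : ℝ) < (H : ℝ) ^ 2 := by positivity
    have hp0 : 0 ≤ th / (H : ℝ) ^ 2 := by positivity
    have hp1 : th / (H : ℝ) ^ 2 ≤ 1 := by
      rw [div_le_one hH2]
      nlinarith
    have h1 := hLOW L H (th / (H : ℝ) ^ 2) hH hp0 hp1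
    have h2 := hKEX L H th hH hth0.le hth1
    have h3 := hPVL (L * L - 1) (L * L) (1 : Perm (Fin (L * L - 1))) (grid L) hcon L H
      (th / (H : ℝ) ^ 2) hp0 hp1
    have h4 := hUBA L (L * L - 1) H th zz ee hH hth0 (by linarith) hz2 he0 he1 hz1
    have h5 := hGPA L H th hH hth0.le (by linarith)
    have h6 : (H : ℝ) ^ 2 * (th / (H : ℝ) ^ 2) = th := by field_simp
    rw [h6] at h1
    have h7 : ENNReal.ofReal (th ^ (L * L) * lb L H th) ≤
        ENNReal.ofReal (A + 6 * (L : ℝ) ^ 3 * th ^ 2 / H) := by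
      rw [ENNReal.ofReal_mul (by positivity), ENNReal.ofReal_add hA0 (by positivity)]
      calc ENNReal.ofReal (th ^ (L * L)) * ENNReal.ofReal (lb L H th)
          ≤ ENNReal.ofReal (th ^ (L * L)) * Ex H (fun x : Bool × Fin L × Fin (L + 1) → ℕ =>
              ENNReal.ofReal (kap (th / (H : ℝ) ^ 2) (ga x) (gc x))) := by gcongr
        _ ≤ Pav L H (th / (H : ℝ) ^ 2) (Has (grid L)) := h1
        _ ≤ Pav L H (th / (H : ℝ) ^ 2) (Has (1 : Perm (Fin (L * L - 1)))) +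
            Pav L H (th / (H : ℝ) ^ 2) (fun S => ¬ GP S) := h3
        _ ≤ _ := add_le_add h4 h5
    exact (ENNReal.ofReal_le_ofReal_iff (by positivity)).1 h7
  have hlim1 := (MID_lim L th).const_mul (th ^ (L * L))
  have hlim2 : Filter.Tendsto (fun H : ℕ => A + 6 * (L : ℝ) ^ 3 * th ^ 2 / (H : ℝ)) Filter.atTop
      (nhds (A + 0)) :=
    tendsto_const_nhds.add (tendsto_const_div_atTop_nhds_zero_nat _)
  have hle := le_of_tendsto_of_tendsto hlim1 hlim2
    ((Filter.eventually_ge_atTop 1).mono fun H hH => hreal H hH)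
  have hx : 144 * th ≤ 1 / 32 := by unfold th; norm_num
  have hcs := hCSM L (144 * th) (by positivity) hx
  have hB : 0 ≤ 1 - 4 * th + 17 * th ^ 2 - 763 * th ^ 3 := by unfold th; norm_num
  have hC : 0 ≤ 1 - 2 * th := by linarith
  have hD : 0 ≤ 1 - th ^ 2 := by nlinarith
  rw [sub_zero, one_pow, mul_one, add_zero, one_pow, mul_one, add_zero] at hle
  have hfin : th ^ (L * L) * ((1 - 4 * th + 17 * th ^ 2 - 763 * th ^ 3) ^ (L * (L / 2)) *
      (1 - 2 * th) ^ L * (1 - th ^ 2) ^ (L * L) * Real.exp (-4 * (16 * (144 * th)) ^ 3) ^ (L * L)) ≤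
      th ^ (L * L) * ((1 - 4 * th + 17 * th ^ 2 - 763 * th ^ 3) ^ (L * (L / 2)) *
      (1 - 2 * th) ^ L * (1 - th ^ 2) ^ (L * L) * ∏ R ∈ CN L, (1 - (144 * th) ^ R.card)) := by
    apply mul_le_mul_of_nonneg_left _ (by positivity)
    exact mul_le_mul_of_nonneg_left hcs (by positivity)
  linarith

end

end Pool.Agent.DSW
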